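import Pool.Agent.E8helper95.F26

/-!
The mixed-norm Strichartz estimate on `ℝ × 𝕋`: the conjectured bound for every `p > 3`, and the
conjectured bound up to `N^ε` for `2 < p ≤ 3`.
-/

set_option autoImplicit false

namespace Pool.Agent.Results.MP_fe1582_an.MixedNormH95

open MeasureTheory Pool.Agent.E8helper95

/-- For a continuous compactly supported cut-off `φ`, for `p > 2` and `ε ≥ 0` (with `ε > 0` unless
`p > 3`), the operators `T_{N,ξ₀}` satisfy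
`‖T_{N,ξ₀} a‖_{L^p_{t,x}} ≤ C (N^{1-3/p} + N^ε) ‖a‖_{L²(ℝ × ℤ)}` with `C` independent of
`N ≥ 1`, `ξ₀` and `a`. -/
theorem result (φ : ℝ → ℂ) (hφ : Continuous φ) (hφc : HasCompactSupport φ)
    (p : ℝ) (hp : 2 < p) (ε : ℝ) (hε : 0 ≤ ε) (hpε : 3 < p ∨ 0 < ε) :
    ∃ C : ℝ, ∀ N : ℝ, 1 ≤ N → ∀ (ξ₀ : ℝ × ℤ) (a : ℝ × ℤ → ℂ), MemLp a 2 freqMeasure →
      eLpNorm (strichartzOp φ N ξ₀ a) (ENNReal.ofReal p) volume
        ≤ ENNReal.ofReal (C * (N ^ (1 - 3 / p) + N ^ ε)) * eLpNorm a 2 freqMeasure := by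
  by_cases h3 : 3 < p
  · obtain ⟨C, hC, h⟩ := estimate_high φ hφ hφc p h3
    refine ⟨C, fun N hN ξ₀ a ha => (h N hN ξ₀ a ha).trans ?_⟩
    refine mul_le_mul_left (ENNReal.ofReal_le_ofReal ?_) _
    have h1 : 0 ≤ N ^ ε := Real.rpow_nonneg (by linarith) _
    apply mul_le_mul_of_nonneg_left _ hC
    linarith
  · have hε' : 0 < ε := hpε.resolve_left h3
    obtain ⟨C, hC, h⟩ := estimate_low φ hφ hφc p hp.le (not_lt.1 h3) ε hε'
    refine ⟨C, fun N hN ξ₀ a ha => (h N hN ξ₀ a ha).trans ?_⟩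
    refine mul_le_mul_left (ENNReal.ofReal_le_ofReal ?_) _
    have h1 : 0 ≤ N ^ (1 - 3 / p) := Real.rpow_nonneg (by linarith) _
    apply mul_le_mul_of_nonneg_left _ hC
    linarith

end Pool.Agent.Results.MP_fe1582_an.MixedNormH95
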